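import Pool.Agent.Y223.G.Stm

/-!
# The part of degree zero of a regular graded algebra with a unit of degree one (part D0 of
project G)
-/

set_option autoImplicit false

namespace Pool.Agent.Y705.G

open Pool.Agent.Y223.G

section

variable {k K : Type} [CommRing k] [Field K] [Algebra k K]

/-- Evaluation of the variable at a unit. -/
noncomputable def ev1 (k : Type) {K : Type} [CommRing k] [Field K] [Algebra k K] (u : Kˣ) :
    LP K →ₐ[k] K :=
  (AddMonoidAlgebra.lift K K ℤ ((Units.coeHom K).comp (zpowersHom Kˣ u))).restrictScalars k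

lemma ev1_hm (u : Kˣ) (d : ℤ) (a : K) : ev1 k u (hm d a) = a * (u : K) ^ d := by
  unfold ev1 hm
  rw [AlgHom.restrictScalars_apply, AddMonoidAlgebra.lift_single, smul_eq_mul]
  simp

/-- The part of degree zero is of finite type. -/
lemma ft_d0 {C : Subalgebra k (LP K)} (hC : Algebra.FiniteType k C) (hgr : Gr C) {u : K}
    (hu0 : u ≠ 0) (hu' : hm 1 u ∈ C) (hu : hm (-1) u⁻¹ ∈ C) : Algebra.FiniteType k (d0 C) := by
  let w : Kˣ := (Units.mk0 u hu0)⁻¹
  have hev : ∀ d a, ev1 k w (hm d a) = a * u ^ (-d) := by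
    intro d a
    rw [ev1_hm]
    simp [w]
  have hmem : ∀ f ∈ C, ev1 k w f ∈ d0 C := by
    intro f hf
    rw [eq_sum_hm f, map_sum]
    refine Subalgebra.sum_mem _ fun d _ => ?_
    rw [hev, mem_d0]
    have h1 := hgr f hf d
    rcases le_or_gt 0 d with h | h
    · obtain ⟨n, rfl⟩ := Int.eq_ofNat_of_zero_le h
      have h2 : hm 0 (f.coeff n * u ^ (-(n : ℤ))) = hm n (f.coeff n) * hm (-1) u⁻¹ ^ n := by
        rw [hm_pow, hm_mul]
        congr 1
        · ring
        · rw [zpow_neg, zpow_natCast, inv_pow]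
      rw [h2]
      exact C.mul_mem h1 (C.pow_mem hu n)
    · obtain ⟨n, hn⟩ := Int.eq_ofNat_of_zero_le (a := -d) (by omega)
      have hd : d = -(n : ℤ) := by
        have : -d = (n : ℤ) := hn
        omega
      subst hd
      have h2 : hm 0 (f.coeff (-(n : ℤ)) * u ^ (-(-(n : ℤ)))) =
          hm (-(n : ℤ)) (f.coeff (-(n : ℤ))) * hm 1 u ^ n := by
        rw [hm_pow, hm_mul]
        congr 1
        · ring
        · rw [neg_neg, zpow_natCast]
      rw [h2]
      exact C.mul_mem h1 (C.pow_mem hu' n)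
  let r : C →ₐ[k] d0 C := ((ev1 k w).comp C.val).codRestrict (d0 C) fun f => hmem f.1 f.2
  let i : d0 C →ₐ[k] C := ((zer k K).comp (d0 C).val).codRestrict C fun x => x.2
  have hri : ∀ a, r (i a) = a := by
    intro a
    apply Subtype.ext
    change ev1 k w (hm 0 (a : K)) = a
    rw [hev]
    simp
  exact Algebra.FiniteType.of_surjective r fun a => ⟨i a, hri a⟩

lemma I0_one (C : Subalgebra k (LP K)) : I0 C 1 = ⊥ := by
  unfold I0
  rw [Ideal.span_eq_bot]
  rintro y ⟨i, hi, hi', -⟩
  omega

end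

/-- The part of degree zero of a regular graded algebra with a unit of degree one is regular. -/
theorem t_D0 : S_I0REG → S_D0 := by
  intro h0 k K _ _ _ _ C hft hrg hgr u hu0 hu hu'
  refine ⟨ft_d0 hft hgr hu0 hu hu', ?_⟩
  have h1 := h0 k K C hft hrg hgr 1 one_pos u hu0 (by simpa using hu) (by simpa using hu')
  rw [I0_one] at h1
  exact IsRegularRing.of_ringEquiv (RingEquiv.quotientBot (d0 C))

end Pool.Agent.Y705.G
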